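import Pool.Agent.H31.CS

namespace Pool.Agent.Results.MP_c909fd_al.Main

open CategoryTheory Pool.Agent.H31.CS

theorem result : ∃ (C : Type) (_ : SmallCategory C) (J : GrothendieckTopology C),
    IsEmpty (Abelian (IsCosheaf J).FullSubcategory) :=
  ⟨T, inferInstance, J, main⟩

end Pool.Agent.Results.MP_c909fd_al.Main
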